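import Pool.Agent.Helper46.SP.CoreSpec

/-! # A02: code systems exist -/

open Cardinal Set
open scoped Pointwise

namespace Pool.Agent.Helper46.SP

section codes

variable (Q : Par)

/-- raw codes of level `ξ` -/
def cdRaw : Q.Lev → Type :=
  (wellFounded_lt (α := Q.Lev)).fix (C := fun _ => Type) (fun ξ ih =>
    Set (RN Q × P0 Q × Set (Σ η : {η : Q.Lev // η < ξ}, ih η.1 η.2 × Q.Ω × RN Q)))

/-- raw triples of level below `ξ` -/
abbrev cdIn (ξ : Q.Lev) : Type := Σ η : {η : Q.Lev // η < ξ}, cdRaw Q η.1 × Q.Ω × RN Q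

/-- sets of triples of level `ξ` -/
abbrev cdOut (ξ : Q.Lev) : Type := Set (RN Q × P0 Q × Set (cdIn Q ξ))

theorem cdRaw_eq (ξ : Q.Lev) : cdRaw Q ξ = cdOut Q ξ := by
  unfold cdRaw
  rw [WellFounded.fix_eq]
  rfl

/-- unfolding of raw codes -/
noncomputable def cdE (ξ : Q.Lev) : cdRaw Q ξ ≃ cdOut Q ξ := Equiv.cast (cdRaw_eq Q ξ)

/-- the action on raw codes -/
noncomputable def cdAct (ξ : Q.Lev) : Grp Q → cdRaw Q ξ → cdRaw Q ξ :=
  (wellFounded_lt (α := Q.Lev)).fix (C := fun ξ => Grp Q → cdRaw Q ξ → cdRaw Q ξ)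
    (fun ξ ih g a => (cdE Q ξ).symm
      ((fun t : RN Q × P0 Q × Set (cdIn Q ξ) => (g • t.1, g • t.2.1,
        (fun s : cdIn Q ξ => (⟨s.1, ih s.1.1 s.1.2 g s.2.1, g (some s.1.1) s.2.2.1,
          g • s.2.2.2⟩ : cdIn Q ξ)) '' t.2.2)) '' (cdE Q ξ a))) ξ

variable {Q}

/-- the action on raw triples -/
noncomputable def cdActIn (ξ : Q.Lev) (g : Grp Q) (s : cdIn Q ξ) : cdIn Q ξ :=
  ⟨s.1, cdAct Q s.1.1 g s.2.1, g (some s.1.1) s.2.2.1, g • s.2.2.2⟩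

/-- the action on the elements of a raw code -/
noncomputable def cdActOut (ξ : Q.Lev) (g : Grp Q) (t : RN Q × P0 Q × Set (cdIn Q ξ)) :
    RN Q × P0 Q × Set (cdIn Q ξ) := (g • t.1, g • t.2.1, cdActIn ξ g '' t.2.2)

theorem cdAct_eq (ξ : Q.Lev) (g : Grp Q) (a : cdRaw Q ξ) :
    cdE Q ξ (cdAct Q ξ g a) = cdActOut ξ g '' cdE Q ξ a := by
  have h : cdAct Q ξ g a = (cdE Q ξ).symm (cdActOut ξ g '' cdE Q ξ a) := by
    unfold cdAct
    rw [WellFounded.fix_eq]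
    rfl
  rw [h, Equiv.apply_symm_apply]

theorem cdAct_one (ξ : Q.Lev) : ∀ a : cdRaw Q ξ, cdAct Q ξ 1 a = a := by
  induction ξ using (wellFounded_lt (α := Q.Lev)).induction with
  | h ξ ih =>
    intro a
    apply (cdE Q ξ).injective
    rw [cdAct_eq]
    have h1 : cdActIn (Q := Q) ξ 1 = id := by
      funext s
      obtain ⟨⟨η, hη⟩, b, i, v⟩ := s
      simp only [cdActIn, ih η hη b, one_smul, id_eq]
      rfl
    have h2 : cdActOut (Q := Q) ξ 1 = id := by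
      funext t
      rw [cdActOut, h1, image_id, one_smul, one_smul]
      rfl
    rw [h2, image_id]

theorem cdAct_mul (ξ : Q.Lev) (g h : Grp Q) : ∀ a : cdRaw Q ξ,
    cdAct Q ξ (g * h) a = cdAct Q ξ g (cdAct Q ξ h a) := by
  induction ξ using (wellFounded_lt (α := Q.Lev)).induction with
  | h ξ ih =>
    intro a
    apply (cdE Q ξ).injective
    rw [cdAct_eq, cdAct_eq, cdAct_eq, ← image_comp]
    have h1 : cdActIn (Q := Q) ξ (g * h) = cdActIn ξ g ∘ cdActIn ξ h := by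
      funext s
      obtain ⟨⟨η, hη⟩, b, i, v⟩ := s
      simp only [cdActIn, Function.comp_apply, ih η hη b, mul_smul]
      rfl
    have h2 : cdActOut (Q := Q) ξ (g * h) = cdActOut ξ g ∘ cdActOut ξ h := by
      funext t
      rw [cdActOut, h1, image_comp, mul_smul, mul_smul]
      rfl
    rw [h2]

variable (Q)

/-- codes -/
abbrev cdU : Type := Σ ξ : Q.Lev, cdRaw Q ξ

variable {Q}

noncomputable instance : MulAction (Grp Q) (cdU Q) where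
  smul g A := ⟨A.1, cdAct Q A.1 g A.2⟩
  one_smul A := by
    change (⟨A.1, cdAct Q A.1 1 A.2⟩ : cdU Q) = A
    rw [cdAct_one]
  mul_smul g h A := by
    change (⟨A.1, cdAct Q A.1 (g * h) A.2⟩ : cdU Q) = ⟨A.1, cdAct Q A.1 g (cdAct Q A.1 h A.2)⟩
    rw [cdAct_mul]

/-- from raw triples to triples -/
def cdI (ξ : Q.Lev) (s : cdIn Q ξ) : cdU Q × Lab Q × RN Q :=
  (⟨s.1.1, s.2.1⟩, (s.1.1, s.2.2.1), s.2.2.2)

theorem cdI_inj (ξ : Q.Lev) : Function.Injective (cdI (Q := Q) ξ) := by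
  rintro ⟨⟨η, hη⟩, b, i, v⟩ ⟨⟨η', hη'⟩, b', i', v'⟩ h
  simp only [cdI, Prod.mk.injEq, Sigma.mk.injEq] at h
  obtain ⟨⟨h1, h2⟩, ⟨-, h3⟩, h4⟩ := h
  subst h1
  obtain rfl := eq_of_heq h2
  subst h3
  subst h4
  rfl

theorem cdI_range (ξ : Q.Lev) (s : cdU Q × Lab Q × RN Q) (h : s.1.1 = s.2.1.1)
    (h' : s.1.1 < ξ) : s ∈ range (cdI (Q := Q) ξ) := by
  obtain ⟨⟨η, b⟩, ⟨η', i⟩, v⟩ := s
  simp only at h h'
  subst h
  exact ⟨⟨⟨η, h'⟩, b, i, v⟩, rfl⟩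

/-- from raw elements to elements -/
def cdJ (ξ : Q.Lev) (t : RN Q × P0 Q × Set (cdIn Q ξ)) :
    RN Q × P0 Q × Set (cdU Q × Lab Q × RN Q) := (t.1, t.2.1, cdI ξ '' t.2.2)

theorem cdJ_inj (ξ : Q.Lev) : Function.Injective (cdJ (Q := Q) ξ) := by
  rintro ⟨x, q, f⟩ ⟨x', q', f'⟩ h
  simp only [cdJ, Prod.mk.injEq] at h
  obtain ⟨h1, h2, h3⟩ := h
  rw [h1, h2, (image_injective.2 (cdI_inj ξ)) h3]

theorem cdJ_range (ξ : Q.Lev) (t : RN Q × P0 Q × Set (cdU Q × Lab Q × RN Q))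
    (h : ∀ s ∈ t.2.2, s.1.1 = s.2.1.1 ∧ s.1.1 < ξ) : t ∈ range (cdJ (Q := Q) ξ) := by
  obtain ⟨x, q, f⟩ := t
  refine ⟨(x, q, cdI ξ ⁻¹' f), ?_⟩
  simp only [cdJ]
  rw [image_preimage_eq_of_subset]
  intro s hs
  exact cdI_range ξ s (h s hs).1 (h s hs).2

/-- elements of a code -/
noncomputable def cdG (A : cdU Q) : Set (RN Q × P0 Q × Set (cdU Q × Lab Q × RN Q)) :=
  cdJ A.1 '' cdE Q A.1 A.2

theorem cdG_smul (g : Grp Q) (A : cdU Q) : cdG (g • A) = g • cdG A := by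
  obtain ⟨ξ, a⟩ := A
  have h1 : cdG (g • (⟨ξ, a⟩ : cdU Q)) = cdJ ξ '' cdE Q ξ (cdAct Q ξ g a) := rfl
  have h2 : g • cdG (⟨ξ, a⟩ : cdU Q) = (fun t => g • t) '' (cdJ ξ '' cdE Q ξ a) := rfl
  rw [h1, h2, cdAct_eq, ← image_comp, ← image_comp]
  have h3 : cdJ (Q := Q) ξ ∘ cdActOut ξ g = (fun t => g • t) ∘ cdJ ξ := by
    funext t
    obtain ⟨x, q, f⟩ := t
    have h4 : cdI (Q := Q) ξ ∘ cdActIn ξ g = (fun s => g • s) ∘ cdI ξ := by
      funext s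
      rfl
    have h5 : cdI (Q := Q) ξ '' (cdActIn ξ g '' f) = (fun s => g • s) '' (cdI ξ '' f) := by
      rw [← image_comp, ← image_comp, h4]
    change ((g • x, g • q, cdI ξ '' (cdActIn ξ g '' f)) : RN Q × P0 Q × _) =
      (g • x, g • q, (fun s => g • s) '' (cdI ξ '' f))
    rw [h5]
  rw [h3]

end codes

theorem st_codes : ST_codes := by
  intro Q
  refine ⟨{
    U := cdU Q
    lev := fun A => A.1
    G := cdG
    lev_mem := ?_
    ext := ?_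
    make := ?_
    lev_smul := fun _ _ => rfl
    G_smul := cdG_smul }⟩
  · rintro ⟨ξ, a⟩ t ⟨⟨x, q, f⟩, -, rfl⟩ s hs
    obtain ⟨⟨⟨η, hη⟩, b, i, v⟩, -, rfl⟩ := hs
    exact ⟨rfl, hη⟩
  · rintro ⟨ξ, a⟩ ⟨ξ', b⟩ h h'
    simp only at h
    subst h
    have h1 : cdJ ξ '' cdE Q ξ a = cdJ ξ '' cdE Q ξ b := h'
    have h2 := (image_injective.2 (cdJ_inj ξ)) h1
    rw [(cdE Q ξ).injective h2]
  · intro ξ T hT
    refine ⟨⟨ξ, (cdE Q ξ).symm (cdJ ξ ⁻¹' T)⟩, rfl, ?_⟩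
    change cdJ ξ '' cdE Q ξ ((cdE Q ξ).symm (cdJ ξ ⁻¹' T)) = T
    rw [Equiv.apply_symm_apply, image_preimage_eq_of_subset]
    intro t ht
    exact cdJ_range ξ t (hT t ht)

end Pool.Agent.Helper46.SP
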