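import Pool.Agent.Helper46.SP.Spec
import Pool.Agent.Helper46.SP.CoreSpec

/-! # A09a: fullness -/

open Cardinal Set
open scoped Pointwise

namespace Pool.Agent.Helper46.SP

theorem full_aleph0_le (Q : Par) : ℵ₀ ≤ Q.K := by
  obtain ⟨ν, -⟩ := Q.lev_bdd ∅ countable_empty
  exact ((cantor ℵ₀).le.trans (Q.cont_le ν)).trans (Q.κ_le_K ν)

/-- conditions are countably closed -/
theorem full_union {Q : Par} {S : CodeSys Q} (hC : CFacts S) (ζ : Stg Q) (f : ℕ → RC S)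
    (hf : ∀ n, f n ∈ (CC ζ : Set (RC S))) (hmono : ∀ n, f n ⊆ f (n + 1)) :
    (⋃ n, f n) ∈ (CC ζ : Set (RC S)) := by
  have hm : Monotone f := monotone_nat_of_le_succ hmono
  have h1 : ⋃₀ (range f) = ⋃ n, f n := sUnion_range f
  rw [← h1]
  refine hC.directed ζ (range f) ?_ ?_ ?_
  · rintro _ ⟨n, rfl⟩
    exact hf n
  · rintro _ ⟨n, rfl⟩ _ ⟨m, rfl⟩
    exact ⟨f (max n m), mem_range_self _, hm (le_max_left _ _), hm (le_max_right _ _)⟩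
  · rw [h1]
    refine (mk_iUnion_le f).trans (mul_le_of_le (full_aleph0_le Q) ?_ ?_)
    · rw [mk_nat]; exact full_aleph0_le Q
    · exact ciSup_le' fun n => (mem_CC.1 (hf n)).1

theorem st_full (hccc : ST_ccc.{0}) (hP : ST_P0ccc) (hCF : ST_cfacts) (hRN : ST_RN) :
    ST_full := by
  classical
  intro Q S ζ p c hc φ hreg hext hdense
  have hC := hCF Q S
  have hR := hRN Q
  obtain ⟨d, hd, A, hAc, hA1, hA2, hA3⟩ := hccc (P0 Q) ((↥(CC ζ : Set (RC S)))ᵒᵈ) (hP Q)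
    (fun f hf => ⟨OrderDual.toDual ⟨⋃ n, (OrderDual.ofDual (f n)).1,
      full_union hC ζ _ (fun n => (OrderDual.ofDual (f n)).2) (fun n => hf n)⟩, fun n =>
        (subset_iUnion (fun n => (OrderDual.ofDual (f n)).1) n :
          (OrderDual.ofDual (f n)).1 ⊆ ⋃ n, (OrderDual.ofDual (f n)).1)⟩)
    p (OrderDual.toDual ⟨c, hc⟩) {x | ∃ v, (x.1, (OrderDual.ofDual x.2).1) ∈ φ v}
    (by
      rintro ⟨q, d⟩ ⟨v, hv⟩ ⟨q', d'⟩ hle
      exact ⟨v, (hreg v).down _ hv q' hle.1 _ (OrderDual.ofDual d').2 hle.2⟩)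
    (by
      rintro ⟨q, d⟩ hle
      obtain ⟨q', hq', d', hd', hdd', v, hv⟩ := hdense q hle.1 _ (OrderDual.ofDual d).2 hle.2
      exact ⟨(q', OrderDual.toDual ⟨d', hd'⟩), ⟨hq', hdd'⟩, v, hv⟩)
  choose v hv using fun a : A => (hA1 a.1 a.2).2
  obtain ⟨v', hv'⟩ : ∃ v' : P0 Q → RN Q, ∀ a : A, v' a.1 = v a :=
    ⟨fun a => if ha : a ∈ A then v ⟨a, ha⟩ else RN.zero, fun a => by simp⟩
  obtain ⟨x, hx⟩ := hR.mix A v' hAc hA2
  refine ⟨(OrderDual.ofDual d).1, (OrderDual.ofDual d).2, hd, x, ?_⟩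
  refine (hreg x).dense p _ (OrderDual.ofDual d).2 fun p' hp' c' hc' hdc' => ?_
  obtain ⟨a, ha, r, hra, hrp⟩ := hA3 p' hp'
  refine ⟨r, hrp, c', hc', Subset.rfl, ?_⟩
  have h1 : (a, (OrderDual.ofDual d).1) ∈ φ (v ⟨a, ha⟩) := hv ⟨a, ha⟩
  have h2 := hx a ha
  rw [hv' ⟨a, ha⟩] at h2
  have h3 := hext _ x a _ (hR.symm _ _ _ h2) h1
  exact (hreg x).down _ h3 r hra c' hc' hdc'

end Pool.Agent.Helper46.SP
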