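import Pool.Agent.Helper46.SP.CoreSpec

/-! # A16: generation of set names -/

open Cardinal Set
open scoped Pointwise

namespace Pool.Agent.Helper46.SP

theorem gen_aleph0_le {Q : Par} (ζ : Q.Lev) : ℵ₀ ≤ Q.κ ζ :=
  (cantor ℵ₀).le.trans (Q.cont_le ζ)

theorem st_Gen (hdense : ST_dense) (hhull : ST_hull) (hcount : ST_count) (hCF : ST_cfacts)
    (hGF : ST_gfacts) (hOF : ST_ofacts) (hRN : ST_RN) (hP0 : ST_P0) : ST_Gen := by
  classical
  intro Q S ζ hHom hRes BB hreg hext Z₀ hZ₀ hZ₀c hinv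
  have hC := hCF Q S
  have hG := hGF Q S
  have hO := hOF Q S
  have hR := hRN Q
  have hP := hP0 Q
  have hκ := gen_aleph0_le ζ
  -- the name
  set T : Set (RN Q × P0 Q × RC S) :=
    {t | t.2.2 ∈ (CC (ζ : Stg Q) : Set (RC S)) ∧ #t.2.2 ≤ Q.κ ζ ∧ (t.2.1, t.2.2) ∈ BB t.1} with hT
  obtain ⟨A, hlev, hGA⟩ := S.make ζ T (by
    rintro t ⟨h1, -, -⟩ s hs
    have h2 := hO.names _ _ h1 s hs
    have h3 := (mem_CC.1 h1).2.1 s hs
    have h4 : S.lev s.1 = tlev s := h2.lev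
    refine ⟨h4, ?_⟩
    rw [h4]
    exact_mod_cast h3)
  -- generators suffice
  have hto : ∀ (x : RN Q) (p : P0 Q) (c : RC S), c ∈ (CC (ζ : Stg Q) : Set (RC S)) →
      FM (CC (ζ : Stg Q)) x (S.G A) p c → (p, c) ∈ BB x := by
    intro x p c hc h
    refine (hreg x).dense p c hc fun p' hp' c' hc' hcc' => ?_
    obtain ⟨p'', hp'', c'', hc'', hcc'', t, ht, h1, h2, h3⟩ := h p' hp' c' hc' hcc'
    rw [hGA] at ht
    refine ⟨p'', hp'', c'', hc'', hcc'', ?_⟩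
    exact hext t.1 x p'' c'' ((hreg t.1).down _ ht.2.2 p'' h1 c'' hc'' h2) (hR.symm _ _ _ h3)
  have hfrom : ∀ (x : RN Q) (p : P0 Q) (c : RC S), (p, c) ∈ BB x →
      FM (CC (ζ : Stg Q)) x (S.G A) p c := by
    intro x p c h p' hp' c' hc' hcc'
    obtain ⟨s, hsf, hsb, hs⟩ := hP.fin_supp p'
    obtain ⟨w, hwc, hwb, hw⟩ := hR.over_univ x
    have hY₀κ : #(Z₀ ∪ s ∪ w : Set (Idx Q)) ≤ Q.κ ζ := by
      refine (mk_union_le _ _).trans (add_le_of_le hκ ((mk_union_le _ _).trans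
        (add_le_of_le hκ hZ₀c ?_)) ?_)
      · exact (hsf.countable.le_aleph0).trans hκ
      · exact (hwc.le_aleph0).trans hκ
    have hY₀b : (Z₀ ∪ s ∪ w : Set (Idx Q)) ⊆ below (ζ : Stg Q) :=
      union_subset (union_subset hZ₀ (hsb _)) (hwb _)
    obtain ⟨d, Y, hdY, hcd, hdζ, hY₀Y, hYb⟩ := hdense Q S (ζ : Stg Q) c' (Z₀ ∪ s ∪ w) hc' hY₀b
      (hY₀κ.trans (Q.κ_le_K ζ))
    obtain ⟨Z, hzZ, hZY, hZκ, hZd⟩ := hhull Q S ζ d Y (Z₀ ∪ s ∪ w) hdY hYb hY₀Y hY₀κ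
    have hcl : Closed (rst d Z) Z := hRes d Y hdY hYb Z hZY hZd
    have hZb : Z ⊆ below (ζ : Stg Q) := hZY.trans hYb
    have h1 : (p', d) ∈ BB x := (hreg x).down _ h p' hp' d hdζ (hcc'.trans hcd)
    have hInv : InvB Z (BB x) := by
      intro g hg y hy
      have h2 := hinv g (fun i hi => hg i (hzZ (Or.inl (Or.inl hi)))) x y hy
      have h3 : g • x = x := by
        have h4 := hR.smul_congr g 1 x w hw (fun i hi => by
          rw [one_smul]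
          exact hg i (hzZ (Or.inr hi)))
        rwa [one_smul] at h4
      rwa [h3] at h2
    have h2 := hHom (rst d Z) Z hcl hZb (BB x) (hreg x) hInv p' d h1 (hO.rstSub d Z)
    have h3 : p'.res Z = p' := hP.res_eq_of p' s Z hs fun i hi => hzZ (Or.inl (Or.inr hi))
    rw [h3] at h2
    have h4 : rst d Z ∈ (CC (ζ : Stg Q) : Set (RC S)) := hO.closedStage _ _ _ hcl hZb
    have h5 : #(rst d Z) ≤ Q.κ ζ := (hcount Q S Z).2.2 ζ d hdY.cond hZκ hZb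
    refine ⟨p', le_rfl, d, hdζ, hcd, (x, p', rst d Z), ?_, le_rfl, hO.rstSub d Z, hR.refl _ _⟩
    rw [hGA]
    exact ⟨h4, h5, h2⟩
  have hfix : ∀ g : Grp Q, Fixes g Z₀ → g • A = A := by
    have hsub : ∀ g : Grp Q, Fixes g Z₀ → ∀ t ∈ T, g • t ∈ T := by
      rintro g hg ⟨x, q, f⟩ ⟨h1, h2, h3⟩
      refine ⟨hG.cc _ _ _ h1, (mk_image_le (f := fun t => g • t)).trans h2, ?_⟩
      exact hinv g hg x (q, f) h3
    intro g hg
    refine S.ext _ _ (S.lev_smul g A) ?_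
    rw [S.G_smul, hGA]
    refine Subset.antisymm ?_ ?_
    · rintro _ ⟨t, ht, rfl⟩
      exact hsub g hg t ht
    · intro t ht
      refine ⟨g⁻¹ • t, hsub g⁻¹ (fun i hi => ?_) t ht, smul_inv_smul g t⟩
      rw [inv_smul_eq_iff]
      exact (hg i hi).symm
  refine ⟨A, ⟨hlev, ?_, ?_, Z₀, hZ₀c, hfix⟩, hfix, fun x p c hc => ⟨hto x p c hc, hfrom x p c⟩⟩
  · intro t ht
    rw [hGA] at ht
    exact ⟨ht.1, ht.2.1⟩
  · intro x q f hf hfκ h
    rw [hGA]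
    exact ⟨hf, hfκ, hto x q f hf h⟩

end Pool.Agent.Helper46.SP
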