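import Pool.Agent.Helper46.SP.Spec

/-! # C1: the Henkin construction (a countable generic two-valued model) -/

universe u

namespace Pool.Agent.Helper46.SP

open Name

/-- Gödel numbers of formulas -/
def fmlCode : {k : ℕ} → Fml k → ℕ
  | _, .mem i j => Nat.pair 0 (Nat.pair i j)
  | _, .eq i j => Nat.pair 1 (Nat.pair i j)
  | _, .neg φ => Nat.pair 2 (fmlCode φ)
  | _, .and φ ψ => Nat.pair 3 (Nat.pair (fmlCode φ) (fmlCode ψ))
  | _, .all φ => Nat.pair 4 (fmlCode φ)

theorem fmlCode_inj : ∀ {k : ℕ} (φ ψ : Fml k), fmlCode φ = fmlCode ψ → φ = ψ := by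
  intro k φ
  induction φ with
  | mem i j =>
    intro ψ h
    cases ψ <;> simp only [fmlCode, Nat.pair_eq_pair] at h
    · obtain ⟨-, h1, h2⟩ := h
      rw [Fin.ext h1, Fin.ext h2]
    all_goals exact absurd h.1 (by decide)
  | eq i j =>
    intro ψ h
    cases ψ <;> simp only [fmlCode, Nat.pair_eq_pair] at h
    rotate_left
    · obtain ⟨-, h1, h2⟩ := h
      rw [Fin.ext h1, Fin.ext h2]
    all_goals exact absurd h.1 (by decide)
  | neg φ ih =>
    intro ψ h
    cases ψ <;> simp only [fmlCode, Nat.pair_eq_pair] at h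
    rotate_left 2
    · rw [ih _ h.2]
    all_goals exact absurd h.1 (by decide)
  | and φ φ' ih ih' =>
    intro ψ h
    cases ψ <;> simp only [fmlCode, Nat.pair_eq_pair] at h
    rotate_left 3
    · rw [ih _ h.2.1, ih' _ h.2.2]
    all_goals exact absurd h.1 (by decide)
  | all φ ih =>
    intro ψ h
    cases ψ <;> simp only [fmlCode, Nat.pair_eq_pair] at h
    rotate_left 4
    · rw [ih _ h.2]
    all_goals exact absurd h.1 (by decide)

instance (k : ℕ) : Countable (Fml k) :=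
  ⟨⟨fmlCode, fun φ ψ h => fmlCode_inj φ ψ h⟩⟩

section

variable {P G : Type u} [Preorder P] [OrderTop P] [Group G] [MulAction G P]

/-- the empty name is hereditarily symmetric -/
theorem henkin_nonempty (S : SymSys P G) : Nonempty {a : Name P // S.IsHS a} := by
  refine ⟨⟨Name.mk PEmpty (fun i => i.elim) (fun i => i.elim), ?_⟩⟩
  refine ⟨fun i => i.elim, ⊤, S.top_mem, fun g _ => ?_⟩
  exact ⟨fun i => i.elim, fun i => i.elim⟩

/-- the condition `r` and the witness `x` take care of the formula `φ(v)` -/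
def HenkinGood (S : SymSys P G) {k : ℕ} (φ : Fml k) (v : Fin k → Name P) (r : P) (x : Name P) :
    Prop :=
  (S.Forces φ v r ∨ S.Forces (Fml.neg φ) v r) ∧
    ∀ ψ : Fml (k + 1), φ = Fml.all ψ →
      S.Forces φ v r ∨ S.Forces (Fml.neg ψ) (Fin.cons x v : Fin (k + 1) → Name P) r

theorem henkin_next (S : SymSys P G) (hF : ForcesFacts S) (q : P) {k : ℕ} (φ : Fml k)
    (v : Fin k → Name P) :
    ∃ rx : P × {a : Name P // S.IsHS a}, rx.1 ≤ q ∧ HenkinGood S φ v rx.1 rx.2.1 := by
  obtain ⟨x₀⟩ := henkin_nonempty S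
  -- decision
  have hdec : ∀ (φ : Fml k), ∃ r ≤ q, S.Forces φ v r ∨ S.Forces (Fml.neg φ) v r := by
    intro φ
    by_cases h : ∃ r ≤ q, S.Forces φ v r
    · obtain ⟨r, hr, h⟩ := h
      exact ⟨r, hr, Or.inl h⟩
    · refine ⟨q, le_rfl, Or.inr ?_⟩
      intro r hr h'
      exact h ⟨r, hr, h'⟩
  have hrest : (∀ ψ : Fml (k + 1), φ ≠ Fml.all ψ) → ∃ rx : P × {a : Name P // S.IsHS a},
      rx.1 ≤ q ∧ HenkinGood S φ v rx.1 rx.2.1 := by
    intro hne
    obtain ⟨r, hr, h⟩ := hdec φ
    exact ⟨(r, x₀), hr, h, fun ψ hψ => absurd hψ (hne ψ)⟩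
  by_cases hall : ∃ ψ : Fml (k + 1), φ = Fml.all ψ
  · obtain ⟨ψ, rfl⟩ := hall
    by_cases h : S.Forces (Fml.all ψ) v q
    · exact ⟨(q, x₀), le_rfl, Or.inl h, fun _ _ => Or.inl h⟩
    · have h' : ¬ ∀ x, S.IsHS x → S.Forces ψ (Fin.cons x v) q := h
      push Not at h'
      obtain ⟨x, hx, hx'⟩ := h'
      have h2 : ¬ ∀ r ≤ q, ∃ s ≤ r, S.Forces ψ (Fin.cons x v) s := fun h3 => hx' (hF.dense _ _ _ h3)
      push Not at h2
      obtain ⟨r, hr, h3⟩ := h2
      have h4 : S.Forces (Fml.neg ψ) (Fin.cons x v) r := h3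
      refine ⟨(r, ⟨x, hx⟩), hr, Or.inr ?_, fun ψ' hψ' => Or.inr ?_⟩
      · intro s hs h5
        exact h3 s hs (h5 x hx)
      · have : ψ' = ψ := by
          have := Fml.all.inj hψ'
          exact this.symm
        rw [this]
        exact h4
  · push Not at hall
    exact hrest hall

end

/-- tasks: formulas with parameters -/
abbrev HenkinTask : Type := Σ k : ℕ, Fml k × (Fin k → ℕ)

theorem st_henkin (h1 : ST_basicEq.{u}) (h2 : ST_forcesFacts.{u}) : ST_henkin.{u} := by
  classical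
  intro P G _ _ _ _ S p
  have hB := h1 P
  have hF := h2 P G S
  obtain ⟨x₀⟩ := henkin_nonempty S
  have : Nonempty HenkinTask := ⟨⟨2, Fml.eq 0 1, fun _ => 0⟩⟩
  obtain ⟨e, he⟩ := exists_surjective_nat HenkinTask
  choose nx hnx using fun (q : P) (t : HenkinTask) (a : ℕ → {a : Name P // S.IsHS a}) =>
    henkin_next S hF q t.2.1 (fun i => (a (t.2.2 i)).1)
  -- the sequence of states
  let st : ℕ → P × (ℕ → {a : Name P // S.IsHS a}) := fun n =>
    Nat.rec (p, fun _ => x₀) (fun n s =>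
      ((nx s.1 (e n.unpair.1) s.2).1, Function.update s.2 n (nx s.1 (e n.unpair.1) s.2).2)) n
  have hst0 : st 0 = (p, fun _ => x₀) := rfl
  have hst : ∀ n, st (n + 1) = ((nx (st n).1 (e n.unpair.1) (st n).2).1,
      Function.update (st n).2 n (nx (st n).1 (e n.unpair.1) (st n).2).2) := fun n => rfl
  have hdec : ∀ n, (st (n + 1)).1 ≤ (st n).1 := by
    intro n
    rw [hst]
    exact (hnx (st n).1 (e n.unpair.1) (st n).2).1
  have hanti : ∀ m n, m ≤ n → (st n).1 ≤ (st m).1 := by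
    intro m n h
    induction n, h using Nat.le_induction with
    | base => exact le_rfl
    | succ n _ ih => exact (hdec n).trans ih
  -- the names
  let a : ℕ → Name P := fun n => ((st (n + 1)).2 n).1
  have ha : ∀ n, S.IsHS (a n) := fun n => ((st (n + 1)).2 n).2
  have hstab : ∀ n m, n < m → ((st m).2 n).1 = a n := by
    intro n m h
    induction m, h using Nat.le_induction with
    | base => rfl
    | succ m hm ih =>
      rw [hst]
      simp only
      rw [Function.update_of_ne (by omega)]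
      exact ih
  -- truth
  let Tr : ∀ {k : ℕ}, Fml k → (Fin k → ℕ) → Prop := fun φ s =>
    ∃ n, S.Forces φ (fun i => a (s i)) (st n).1
  have hgood : ∀ {k : ℕ} (φ : Fml k) (s : Fin k → ℕ), ∃ n,
      HenkinGood S φ (fun i => a (s i)) (st (n + 1)).1 (a n) := by
    intro k φ s
    obtain ⟨m, hm⟩ := he ⟨k, φ, s⟩
    have hn : (Nat.pair m ((Finset.univ.sup s) + 1)).unpair.1 = m := by rw [Nat.unpair_pair]
    refine ⟨Nat.pair m ((Finset.univ.sup s) + 1), ?_⟩
    set n := Nat.pair m ((Finset.univ.sup s) + 1) with hn'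
    have hle : (Finset.univ.sup s) + 1 ≤ n := Nat.right_le_pair _ _
    have hlt : ∀ i, s i < n := fun i =>
      lt_of_lt_of_le (Nat.lt_succ_of_le (Finset.le_sup (f := s) (Finset.mem_univ i))) hle
    have h3 := (hnx (st n).1 (e n.unpair.1) (st n).2).2
    have h4 : (st (n + 1)).1 = (nx (st n).1 (e n.unpair.1) (st n).2).1 := by rw [hst]
    have h5 : a n = (nx (st n).1 (e n.unpair.1) (st n).2).2.1 := by
      change ((st (n + 1)).2 n).1 = _
      rw [hst]
      simp only [Function.update_self]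
    rw [h4, h5]
    rw [hn, hm] at h3 ⊢
    have h6 : (fun i => a (s i)) = fun i => ((st n).2 (s i)).1 := by
      funext i
      exact (hstab (s i) n (hlt i)).symm
    rw [h6]
    exact h3
  have hmono : ∀ {k : ℕ} (φ : Fml k) (s : Fin k → ℕ) (m n : ℕ), m ≤ n →
      S.Forces φ (fun i => a (s i)) (st m).1 → S.Forces φ (fun i => a (s i)) (st n).1 :=
    fun φ s m n h h' => hF.mono φ _ _ _ h' (hanti m n h)
  have htr_neg : ∀ {k : ℕ} (φ : Fml k) (s : Fin k → ℕ), Tr (Fml.neg φ) s ↔ ¬ Tr φ s := by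
    intro k φ s
    constructor
    · rintro ⟨m, hm⟩ ⟨n, hn⟩
      have h3 := hmono φ s n (max m n) (le_max_right _ _) hn
      have h4 : ∀ q ≤ (st m).1, ¬ S.Forces φ (fun i => a (s i)) q := hm
      exact h4 _ (hanti m (max m n) (le_max_left _ _)) h3
    · intro h
      obtain ⟨n, h3 | h3, -⟩ := hgood φ s
      · exact absurd ⟨n + 1, h3⟩ h
      · exact ⟨n + 1, h3⟩
  have htr_and : ∀ {k : ℕ} (φ ψ : Fml k) (s : Fin k → ℕ),
      Tr (Fml.and φ ψ) s ↔ Tr φ s ∧ Tr ψ s := by
    intro k φ ψ s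
    constructor
    · rintro ⟨m, hm⟩
      exact ⟨⟨m, hm.1⟩, ⟨m, hm.2⟩⟩
    · rintro ⟨⟨m, hm⟩, ⟨n, hn⟩⟩
      exact ⟨max m n, hmono φ s m _ (le_max_left _ _) hm, hmono ψ s n _ (le_max_right _ _) hn⟩
  have hcons : ∀ {k : ℕ} (m : ℕ) (s : Fin k → ℕ),
      (fun i => a ((Fin.cons m s : Fin (k + 1) → ℕ) i)) =
        (Fin.cons (a m) (fun i => a (s i)) : Fin (k + 1) → Name P) := by
    intro k m s
    funext i
    refine Fin.cases ?_ (fun i => ?_) i
    · simp
    · simp
  have htr_all : ∀ {k : ℕ} (φ : Fml (k + 1)) (s : Fin k → ℕ),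
      Tr (Fml.all φ) s ↔ ∀ m, Tr φ (Fin.cons m s : Fin (k + 1) → ℕ) := by
    intro k φ s
    constructor
    · rintro ⟨n, hn⟩ m
      have h3 : ∀ x, S.IsHS x → S.Forces φ (Fin.cons x (fun i => a (s i))) (st n).1 := hn
      refine ⟨n, ?_⟩
      rw [hcons]
      exact h3 _ (ha m)
    · intro h
      obtain ⟨n, -, h4⟩ := hgood (Fml.all φ) s
      rcases h4 φ rfl with h5 | h5
      · exact ⟨n + 1, h5⟩
      · exfalso
        have h6 : Tr (Fml.neg φ) (Fin.cons n s : Fin (k + 1) → ℕ) := by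
          refine ⟨n + 1, ?_⟩
          rw [hcons]
          exact h5
        exact (htr_neg _ _).1 h6 (h n)
  -- the model
  let R : Setoid ℕ :=
    { r := fun m n => ∃ k, FEq (a m) (a n) (st k).1
      iseqv := by
        refine ⟨fun m => ⟨0, hB.refl _ _⟩, fun {m n} h => ?_, fun {l m n} h h' => ?_⟩
        · obtain ⟨k, hk⟩ := h
          exact ⟨k, hB.symm _ _ _ hk⟩
        · obtain ⟨k, hk⟩ := h
          obtain ⟨k', hk'⟩ := h'
          exact ⟨max k k', hB.trans _ _ _ _
            (hB.mono _ _ _ _ hk (hanti _ _ (le_max_left _ _)))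
            (hB.mono _ _ _ _ hk' (hanti _ _ (le_max_right _ _)))⟩ }
  let E : Quotient R → Quotient R → Prop := Quotient.lift₂
    (fun m n => ∃ k, FMem (a m) (a n) (st k).1) (by
      have key : ∀ m n m' n' : ℕ, (∃ k, FEq (a m) (a m') (st k).1) →
          (∃ k, FEq (a n) (a n') (st k).1) → (∃ k, FMem (a m) (a n) (st k).1) →
          ∃ k, FMem (a m') (a n') (st k).1 := by
        rintro m n m' n' ⟨k, hk⟩ ⟨k', hk'⟩ ⟨k'', hk''⟩
        refine ⟨max k (max k' k''), hB.memCongr (a m) (a m') (a n) (a n') _ ?_ ?_ ?_⟩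
        · exact hB.mono _ _ _ _ hk (hanti _ _ (le_max_left _ _))
        · exact hB.mono _ _ _ _ hk' (hanti _ _ ((le_max_left _ _).trans (le_max_right _ _)))
        · exact hB.memMono _ _ _ _ hk'' (hanti _ _ ((le_max_right _ _).trans (le_max_right _ _)))
      intro m n m' n' h h'
      have hs : ∀ m n : ℕ, (∃ k, FEq (a m) (a n) (st k).1) → ∃ k, FEq (a n) (a m) (st k).1 :=
        fun m n ⟨k, hk⟩ => ⟨k, hB.symm _ _ _ hk⟩
      exact propext ⟨key m n m' n' h h', key m' n' m n (hs _ _ h) (hs _ _ h')⟩)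
  have htruth : ∀ {k : ℕ} (φ : Fml k) (s : Fin k → ℕ),
      Sat (Quotient R) E φ (fun i => Quotient.mk R (s i)) ↔ Tr φ s := by
    intro k φ
    induction φ with
    | mem i j => intro s; exact Iff.rfl
    | eq i j => intro s; exact Quotient.eq (r := R)
    | neg φ ih => intro s; rw [htr_neg, ← ih]; rfl
    | and φ ψ ih ih' => intro s; rw [htr_and, ← ih, ← ih']; rfl
    | all φ ih =>
      intro s
      rw [htr_all]
      have hq : ∀ m : ℕ, (fun i => Quotient.mk R ((Fin.cons m s : Fin _ → ℕ) i)) =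
          Fin.cons (Quotient.mk R m) (fun i => Quotient.mk R (s i)) := by
        intro m
        funext i
        refine Fin.cases ?_ (fun i => ?_) i
        · simp
        · simp
      constructor
      · intro h m
        rw [← ih, hq]
        exact h (Quotient.mk R m)
      · intro h x
        obtain ⟨m, rfl⟩ := Quotient.exists_rep x
        have := (ih (Fin.cons m s)).2 (h m)
        rw [hq] at this
        exact this
  refine ⟨Quotient R, E, fun k φ hφ w => ?_⟩
  have hw : w = fun i => Quotient.mk R ((w i).out) := by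
    funext i
    exact (Quotient.out_eq (w i)).symm
  rw [hw, htruth]
  exact ⟨0, hφ _ fun i => ha _⟩

end Pool.Agent.Helper46.SP
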