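import Pool.Agent.Helper46.SP.Spec

/-! # D2: dependent choices in the symmetric model -/

universe u

namespace Pool.Agent.Helper46.SP

open Name

section

variable {P : Type u}

/-- index type of a name -/
def dcIx : Name P → Type u
  | Name.mk α _ _ => α

/-- elements of a name -/
def dcElt : (a : Name P) → dcIx a → Name P
  | Name.mk _ A _ => A

/-- labels of a name -/
def dcLab : (a : Name P) → dcIx a → P
  | Name.mk _ _ B => B

theorem dc_fmem [Preorder P] (x a : Name P) (p : P) :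
    FMem x a p ↔ ∀ q ≤ p, ∃ r ≤ q, ∃ j : dcIx a, r ≤ dcLab a j ∧ FEq x (dcElt a j) r := by
  cases a
  exact Iff.rfl

theorem dc_fmem_act {G : Type u} [Preorder P] [Group G] [MulAction G P] (g : G) (x a : Name P)
    (p : P) : FMem x (act g a) p ↔ ∀ q ≤ p, ∃ r ≤ q, ∃ j : dcIx a, r ≤ g • dcLab a j ∧
      FEq x (act g (dcElt a j)) r := by
  cases a
  exact Iff.rfl

theorem dc_elem [Preorder P] (hB : BasicEq P) (a : Name P) (j : dcIx a) (p : P)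
    (h : p ≤ dcLab a j) : FMem (dcElt a j) a p := by
  cases a
  exact hB.elem _ _ _ j p h

theorem dc_elem_act {G : Type u} [Preorder P] [Group G] [MulAction G P] (hB : BasicEq P) (g : G)
    (a : Name P) (j : dcIx a) (p : P) (h : p ≤ g • dcLab a j) :
    FMem (act g (dcElt a j)) (act g a) p := by
  cases a with
  | mk α A B => exact hB.elem α (fun i => act g (A i)) (fun i => g • B i) j p h

theorem dc_feq_mk [Preorder P] {ι : Type u} (A A' : ι → Name P) (B : ι → P) (p : P)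
    (h : ∀ i, ∀ q ≤ p, q ≤ B i → FEq (A i) (A' i) q) : FEq (Name.mk ι A B) (Name.mk ι A' B) p :=
  ⟨fun i q hq hqi => ⟨q, le_rfl, i, hqi, h i q hq hqi⟩,
    fun i q hq hqi => ⟨q, le_rfl, i, hqi, h i q hq hqi⟩⟩

end

section

variable {P G : Type u} [Preorder P] [OrderTop P] [Group G] [MulAction G P]

theorem dc_pair_congr (hB : BasicEq P) (a a' b b' : Name P) (p : P) (h : FEq a a' p)
    (h' : FEq b b' p) : FEq (Name.pair a b) (Name.pair a' b') p := by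
  refine dc_feq_mk _ _ _ _ fun i q hq _ => ?_
  by_cases hi : i.down
  · simp only [hi, if_true]; exact hB.mono _ _ _ _ h hq
  · simp only [hi]; exact hB.mono _ _ _ _ h' hq

theorem dc_opair_congr (hB : BasicEq P) (a a' b b' : Name P) (p : P) (h : FEq a a' p)
    (h' : FEq b b' p) : FEq (Name.opair a b) (Name.opair a' b') p :=
  dc_pair_congr hB _ _ _ _ p (dc_pair_congr hB _ _ _ _ p h h) (dc_pair_congr hB _ _ _ _ p h h')

theorem dc_hs_cons (S : SymSys P G) {k : ℕ} {x : Name P} {v : Fin k → Name P} (hx : S.IsHS x)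
    (hv : ∀ i, S.IsHS (v i)) : ∀ i, S.IsHS ((Fin.cons x v : Fin (k + 1) → Name P) i) := by
  intro i
  refine Fin.cases ?_ (fun i => ?_) i
  · exact hx
  · exact hv i

theorem dc_hs_elt (S : SymSys P G) (a : Name P) (h : S.IsHS a) (j : dcIx a) :
    S.IsHS (dcElt a j) := by
  cases a
  exact h.1 j

theorem dc_hs_sym (S : SymSys P G) (a : Name P) (h : S.IsHS a) : S.IsSym a := by
  cases a
  exact h.2

theorem dc_congr_cons (hB : BasicEq P) (S : SymSys P G) (hF : ForcesFacts S) {k : ℕ}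
    (φ : Fml (k + 1)) (x y : Name P) (v : Fin k → Name P) (p : P) (h : FEq x y p)
    (h' : S.Forces φ (Fin.cons y v) p) : S.Forces φ (Fin.cons x v) p := by
  refine hF.congr φ _ _ p ?_ h'
  intro i
  refine Fin.cases ?_ (fun i => ?_) i
  · exact hB.symm _ _ _ h
  · exact hB.refl _ _

/-- the names `A i`, `i ∈ ι`, collected -/
theorem dc_hs_mk (S : SymSys P G) (hB : BasicEq P) (A : ℕ → Name P) (hA : ∀ n, S.IsHS (A n))
    (hc : ∀ H : ℕ → Subgroup G, (∀ n, H n ∈ S.F) → (⨅ n, H n) ∈ S.F) :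
    S.IsHS (Name.mk (ULift.{u} ℕ) (fun n => A n.down) (fun _ => ⊤)) := by
  refine ⟨fun n => hA n.down, ?_⟩
  choose H hH hH' using fun n => dc_hs_sym S (A n) (hA n)
  refine ⟨⨅ n, H n, hc H hH, fun g hg => ?_⟩
  rw [Subgroup.mem_iInf] at hg
  have h1 : act g (Name.mk (ULift.{u} ℕ) (fun n => A n.down) (fun _ => (⊤ : P))) =
      Name.mk (ULift.{u} ℕ) (fun n => act g (A n.down)) (fun _ => (⊤ : P)) := by
    simp only [Name.act, S.smul_top]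
  rw [h1]
  exact dc_feq_mk _ _ _ _ fun n q _ _ => hB.mono _ _ _ _ (hH' n.down g (hg n.down)) le_top

end

section

variable {P₀ C G : Type u} [Preorder P₀] [OrderTop P₀] [Preorder C] [OrderTop C] [Group G]
  [MulAction G P₀] [MulAction G C]

/-- mixing of the names `V a`, `a ∈ A` -/
def dcMix (A : Set P₀) (V : P₀ → Name (P₀ × C)) : Name (P₀ × C) :=
  Name.mk (Σ a : A, Σ i : dcIx (V a.1), {q : P₀ × C // q ≤ dcLab (V a.1) i ∧ q ≤ (a.1, ⊤)})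
    (fun t => dcElt (V t.1.1) t.2.1) (fun t => t.2.2.1)

theorem dc_fmem_mix (A : Set P₀) (V : P₀ → Name (P₀ × C)) (x : Name (P₀ × C)) (p : P₀ × C) :
    FMem x (dcMix A V) p ↔ ∀ q ≤ p, ∃ r ≤ q, ∃ a ∈ A, ∃ i : dcIx (V a), r ≤ dcLab (V a) i ∧
      r ≤ (a, ⊤) ∧ FEq x (dcElt (V a) i) r := by
  constructor
  · intro h q hq
    obtain ⟨r, hr, ⟨a, i, s⟩, h1, h2⟩ := h q hq
    exact ⟨r, hr, a.1, a.2, i, h1.trans s.2.1, h1.trans s.2.2, h2⟩
  · intro h q hq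
    obtain ⟨r, hr, a, ha, i, h1, h2, h3⟩ := h q hq
    exact ⟨r, hr, ⟨⟨a, ha⟩, i, ⟨r, h1, h2⟩⟩, le_rfl, h3⟩

theorem dc_mix_eq (hB : BasicEq (P₀ × C)) (A : Set P₀) (V : P₀ → Name (P₀ × C))
    (hA : ∀ a ∈ A, ∀ b ∈ A, a ≠ b → ¬ ∃ r, r ≤ a ∧ r ≤ b) (a : P₀) (ha : a ∈ A) (c : C) :
    FEq (dcMix A V) (V a) (a, c) := by
  refine hB.ext _ _ _ fun x q hq => ?_
  rw [dc_fmem_mix, dc_fmem]
  constructor
  · intro h s hs
    obtain ⟨r, hr, b, hb, i, h1, h2, h3⟩ := h s hs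
    have hab : b = a := by
      by_contra hne
      exact hA b hb a ha hne ⟨r.1, h2.1, ((hr.trans hs).trans hq).1⟩
    subst hab
    exact ⟨r, hr, i, h1, h3⟩
  · intro h s hs
    obtain ⟨r, hr, i, h1, h3⟩ := h s hs
    exact ⟨r, hr, a, ha, i, h1, ⟨((hr.trans hs).trans hq).1, le_top⟩, h3⟩

theorem dc_mix_hs (hB : BasicEq (P₀ × C)) (S : SymSys (P₀ × C) G) (hG : GoodProd P₀ C G S)
    (A : Set P₀) (hAc : A.Countable) (V : P₀ → Name (P₀ × C)) (hV : ∀ a ∈ A, S.IsHS (V a)) :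
    S.IsHS (dcMix A V) := by
  refine ⟨fun t => dc_hs_elt S _ (hV t.1.1 t.1.2) _, ?_⟩
  have hex : ∀ a : A, ∃ H ∈ S.F, ∀ g ∈ H, FEq (act g (V a.1)) (V a.1) ⊤ ∧ g • a.1 = a.1 := by
    intro a
    obtain ⟨H, hH, h⟩ := dc_hs_sym S _ (hV a.1 a.2)
    exact ⟨H ⊓ MulAction.stabilizer G a.1, S.inf_mem _ hH _ (hG.stab a.1),
      fun g hg => ⟨h g hg.1, hg.2⟩⟩
  choose H hH hH' using hex
  have hex2 : ∃ K ∈ S.F, ∀ g ∈ K, ∀ a ∈ A, FEq (act g (V a)) (V a) ⊤ ∧ g • a = a := by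
    rcases A.eq_empty_or_nonempty with rfl | hne
    · exact ⟨⊤, S.top_mem, fun g _ a ha => absurd ha (Set.notMem_empty a)⟩
    · obtain ⟨f, hf⟩ := hAc.exists_eq_range hne
      have hfA : ∀ n, f n ∈ A := fun n => hf ▸ Set.mem_range_self n
      refine ⟨⨅ n, H ⟨f n, hfA n⟩, hG.countable _ fun n => hH _, fun g hg a ha => ?_⟩
      rw [Subgroup.mem_iInf] at hg
      have ha' : a ∈ Set.range f := hf ▸ ha
      obtain ⟨n, rfl⟩ := ha'
      exact hH' ⟨f n, hfA n⟩ g (hg n)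
  obtain ⟨K, hK, hK'⟩ := hex2
  suffices key : ∀ g ∈ K, FEq (act g (dcMix A V)) (dcMix A V) ⊤ from ⟨K, hK, key⟩
  refine fun g hg => hB.ext _ _ _ fun x q _ => ?_
  have htop : g • (⊤ : C) = ⊤ := congrArg Prod.snd (S.smul_top g)
  constructor
  · intro h
    rw [dc_fmem_mix]
    intro s hs
    rw [dc_fmem_act] at h
    obtain ⟨r, hr, ⟨a, i, t⟩, h1, h2⟩ := h s hs
    obtain ⟨hg1, hg2⟩ := hK' g hg a.1 a.2
    have h3 : r ≤ g • dcLab (V a.1) i := h1.trans (S.smul_le g _ _ t.2.1)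
    have h4 := dc_elem_act hB g (V a.1) i r h3
    have h5 : FMem x (V a.1) r := hB.memCongr _ _ _ _ _ (hB.symm _ _ _ h2)
      (hB.mono _ _ _ _ hg1 le_top) h4
    rw [dc_fmem] at h5
    obtain ⟨u, hu, j, h6, h7⟩ := h5 r le_rfl
    refine ⟨u, hu.trans hr, a.1, a.2, j, h6, ?_, h7⟩
    have h8 : g • t.1 ≤ g • ((a.1, ⊤) : P₀ × C) := S.smul_le g _ _ t.2.2
    have h9 : g • ((a.1, ⊤) : P₀ × C) = (a.1, ⊤) := by
      rw [Prod.smul_mk, hg2, htop]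
    rw [h9] at h8
    exact (hu.trans h1).trans h8
  · intro h
    rw [dc_fmem_mix] at h
    rw [dc_fmem_act]
    intro s hs
    obtain ⟨r, hr, a, ha, i, h1, h2, h3⟩ := h s hs
    obtain ⟨hg1, hg2⟩ := hK' g hg a ha
    have h4 := dc_elem hB (V a) i r h1
    have h5 : FMem x (act g (V a)) r := hB.memCongr _ _ _ _ _ (hB.symm _ _ _ h3)
      (hB.symm _ _ _ (hB.mono _ _ _ _ hg1 le_top)) h4
    rw [dc_fmem_act] at h5
    obtain ⟨u, hu, j, h6, h7⟩ := h5 r le_rfl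
    have h8 : g⁻¹ • u ≤ dcLab (V a) j := by
      have := S.smul_le g⁻¹ _ _ h6
      rwa [inv_smul_smul] at this
    have h9 : g⁻¹ • u ≤ ((a, ⊤) : P₀ × C) := by
      have h10 := S.smul_le g⁻¹ _ _ (hu.trans h2)
      have h11 : g⁻¹ • a = a := by
        rw [inv_smul_eq_iff]; exact hg2.symm
      have h12 : g⁻¹ • (⊤ : C) = ⊤ := congrArg Prod.snd (S.smul_top g⁻¹)
      have h13 : g⁻¹ • ((a, ⊤) : P₀ × C) = (a, ⊤) := by rw [Prod.smul_mk, h11, h12]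
      rwa [h13] at h10
    refine ⟨u, hu.trans hr, ⟨⟨a, ha⟩, j, ⟨g⁻¹ • u, h8, h9⟩⟩, ?_, h7⟩
    change u ≤ g • g⁻¹ • u
    rw [smul_inv_smul]

/-- fullness -/
theorem dc_full (hB : BasicEq (P₀ × C)) (S : SymSys (P₀ × C) G) (hF : ForcesFacts S)
    (hG : GoodProd P₀ C G S) (hccc : ST_ccc.{u}) {k : ℕ} (φ : Fml (k + 1))
    (w : Fin k → Name (P₀ × C)) (p : P₀) (c : C) (h : S.Forces (Fml.ex φ) w (p, c)) :
    ∃ d ≤ c, ∃ v, S.IsHS v ∧ S.Forces φ (Fin.cons v w) (p, d) := by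
  classical
  rw [hF.ex] at h
  obtain ⟨d, hd, A, hAc, hA1, hA2, hA3⟩ := hccc P₀ C hG.ccc hG.closed p c
    {x | ∃ v, S.IsHS v ∧ S.Forces φ (Fin.cons v w) x}
    (fun x hx y hy => by
      obtain ⟨v, hv, hv'⟩ := hx
      exact ⟨v, hv, hF.mono _ _ _ _ hv' hy⟩)
    (fun x hx => by
      obtain ⟨r, hr, v, hv, hv'⟩ := h x hx
      exact ⟨r, hr, v, hv, hv'⟩)
  choose V hV using fun a : A => (hA1 a.1 a.2).2
  obtain ⟨V', hV'⟩ : ∃ V' : P₀ → Name (P₀ × C), ∀ a : A, V' a.1 = V a :=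
    ⟨fun a => if ha : a ∈ A then V ⟨a, ha⟩ else Name.mk PEmpty (fun i => i.elim) (fun i => i.elim),
      fun a => by simp⟩
  refine ⟨d, hd, dcMix A V', dc_mix_hs hB S hG A hAc V' fun a ha => ?_, ?_⟩
  · have := (hV ⟨a, ha⟩).1
    rw [← hV' ⟨a, ha⟩] at this
    exact this
  · refine hF.dense _ _ _ fun q hq => ?_
    obtain ⟨a, ha, r, hra, hrq⟩ := hA3 q.1 hq.1
    refine ⟨(r, q.2), ⟨hrq, le_rfl⟩, ?_⟩
    have h1 := (hV ⟨a, ha⟩).2
    rw [← hV' ⟨a, ha⟩] at h1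
    have h2 := dc_congr_cons hB S hF φ _ _ w (a, d) (dc_mix_eq hB A V' hA2 a ha d) h1
    exact hF.mono _ _ _ _ h2 ⟨hra, hq.2⟩

end

theorem st_dc (h1 : ST_basicEq.{u}) (h2 : ST_forcesFacts.{u}) (h3 : ST_setFacts.{u})
    (h4 : ST_ccc.{u}) : ST_dc.{u} := by
  classical
  intro P₀ C G _ _ _ _ _ _ _ S hG p₀
  have hB := h1 (P₀ × C)
  have hF := h2 (P₀ × C) G S
  have hS := h3 (P₀ × C) G S
  intro a ha r hr
  rw [hF.imp]
  intro q₁ _ hex
  rw [hF.imp]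
  intro q₂ hq₂ hstep
  have hex2 := hF.mono _ _ _ _ hex hq₂
  clear hex
  -- the parameters
  set v₂ : Fin 2 → Name (P₀ × C) := Fin.cons r (Fin.cons a Fin.elim0) with hv₂
  rw [hF.ex]
  intro q₃ hq₃
  have hex3 := hF.mono _ _ _ _ hex2 hq₃
  have hstep3 := hF.mono _ _ _ _ hstep hq₃
  clear hex2 hstep
  obtain ⟨p, c⟩ := q₃
  have hv₂hs : ∀ i, S.IsHS (v₂ i) := dc_hs_cons S hr (dc_hs_cons S ha (fun i => i.elim0))
  -- start
  obtain ⟨d₀, hd₀, x₀, hx₀, hx₀'⟩ := dc_full hB S hF hG h4 _ _ p c hex3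
  have hx₀a : FMem x₀ a (p, d₀) := hx₀'
  -- step
  have hnext : ∀ t : {t : C × Name (P₀ × C) // t.1 ≤ c ∧ S.IsHS t.2 ∧ FMem t.2 a (p, t.1)},
      ∃ t' : {t : C × Name (P₀ × C) // t.1 ≤ c ∧ S.IsHS t.2 ∧ FMem t.2 a (p, t.1)},
        t'.1.1 ≤ t.1.1 ∧ FMem (Name.opair t.1.2 t'.1.2) r (p, t'.1.1) := by
    rintro ⟨⟨d, x⟩, hd, hx, hxa⟩
    simp only at hd hx hxa
    have e1 : S.Forces (Fml.all (Fml.imp (Fml.mem 0 2)
        (Fml.ex (Fml.and (Fml.mem 0 3) (Fml.relMem 2 1 0))))) v₂ (p, d) :=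
      hF.mono _ _ _ _ hstep3 ⟨le_rfl, hd⟩
    have e2 := e1 x hx
    rw [hF.imp] at e2
    have e3 := e2 (p, d) le_rfl hxa
    obtain ⟨d', hd', y, hy, e4⟩ := dc_full hB S hF hG h4 _ _ p d e3
    obtain ⟨e5, e6⟩ := e4
    rw [hS.relMem _ (dc_hs_cons S hy (dc_hs_cons S hx hv₂hs))] at e6
    exact ⟨⟨(d', y), hd'.trans hd, hy, e5⟩, hd', e6⟩
  choose nx hnx using hnext
  let st : ℕ → {t : C × Name (P₀ × C) // t.1 ≤ c ∧ S.IsHS t.2 ∧ FMem t.2 a (p, t.1)} :=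
    fun n => Nat.rec ⟨(d₀, x₀), hd₀, hx₀, hx₀a⟩ (fun _ s => nx s) n
  have hst : ∀ n, st (n + 1) = nx (st n) := fun n => rfl
  obtain ⟨d, hd⟩ := hG.closed (fun n => (st n).1.1) (fun n => by
    rw [hst]
    exact (hnx (st n)).1)
  have hdc : d ≤ c := (hd 0).trans (st 0).2.1
  have hX : ∀ n, S.IsHS (st n).1.2 := fun n => (st n).2.2.1
  have hXa : ∀ n, FMem (st n).1.2 a (p, d) := fun n =>
    hB.memMono _ _ _ _ (st n).2.2.2 ⟨le_rfl, hd n⟩
  have hXr : ∀ n, FMem (Name.opair (st n).1.2 (st (n + 1)).1.2) r (p, d) := fun n =>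
    hB.memMono _ _ (p, (st (n + 1)).1.1) (p, d) (hnx (st n)).2 ⟨le_rfl, hd (n + 1)⟩
  -- the function
  set f : Name (P₀ × C) := Name.mk (ULift.{u} ℕ)
    (fun n => Name.opair (Name.num n.down) (st n.down).1.2) (fun _ => ⊤) with hf
  have hfhs : S.IsHS f := dc_hs_mk S hB (fun n => Name.opair (Name.num n) (st n).1.2)
    (fun n => hS.hsOpair _ _ (hS.hsNum n) (hX n)) hG.countable
  have hfel : ∀ n t, FMem (Name.opair (Name.num n) (st n).1.2) f t := fun n t =>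
    hB.elem (ULift.{u} ℕ) (fun n => Name.opair (Name.num n.down) (st n.down).1.2) (fun _ => ⊤)
      ⟨n⟩ t le_top
  have hfmem : ∀ (z y : Name (P₀ × C)) t, FMem (Name.opair z y) f t → ∃ u ≤ t, ∃ n,
      FEq z (Name.num n) u ∧ FEq y (st n).1.2 u := by
    intro z y t ht
    obtain ⟨u, hu, n, -, h5⟩ := ht t le_rfl
    obtain ⟨h6, h7⟩ := hS.opairInj _ _ _ _ _ h5
    exact ⟨u, hu, n.down, h6, h7⟩
  have homem : ∀ (z : Name (P₀ × C)) t, FMem z Name.omega t → ∃ u ≤ t, ∃ n : ℕ,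
      FEq z (Name.num n) u := by
    intro z t ht
    obtain ⟨u, hu, n, -, h5⟩ := ht t le_rfl
    exact ⟨u, hu, n.down, h5⟩
  have hnum : ∀ (z : Name (P₀ × C)) (m n : ℕ) t, FEq z (Name.num m) t → FEq z (Name.num n) t →
      m = n := by
    intro z m n t hm hn
    exact hS.numInj m n t (hB.trans _ _ _ _ (hB.symm _ _ _ hm) hn)
  refine ⟨(p, d), ⟨le_rfl, hdc⟩, Name.omega, hS.hsOmega, ?_⟩
  rw [hF.ex]
  intro q₄ hq₄
  refine ⟨q₄, le_rfl, f, hfhs, ?_⟩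
  refine hF.mono _ _ (p, d) _ ?_ hq₄
  clear q₄ hq₄
  have hv₄hs := dc_hs_cons S hfhs (dc_hs_cons S hS.hsOmega hv₂hs)
  refine ⟨?_, ?_, ?_, ?_⟩
  · rw [hS.isOmega _ hv₄hs]
    exact hB.refl _ _
  · intro n hn
    rw [hF.imp]
    intro t ht hnt
    have hnt' : FMem n Name.omega t := hnt
    rw [hF.ex]
    intro t₁ ht₁
    obtain ⟨u, hu, m, hm⟩ := homem n t₁ (hB.memMono _ _ _ _ hnt' ht₁)
    refine ⟨u, hu, (st m).1.2, hX m, ?_, ?_⟩
    · rw [hS.relMem _ (dc_hs_cons S (hX m) (dc_hs_cons S hn hv₄hs))]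
      exact hB.memCongr _ _ _ _ _ (dc_opair_congr hB _ _ _ _ _ (hB.symm _ _ _ hm)
        (hB.refl _ _)) (hB.refl _ _) (hfel m u)
    · intro y hy
      rw [hF.imp]
      intro t₂ ht₂ h5
      rw [hS.relMem _ (dc_hs_cons S hy (dc_hs_cons S (hX m) (dc_hs_cons S hn hv₄hs)))] at h5
      have h5' : FMem (Name.opair n y) f t₂ := h5
      refine hB.dense _ _ _ fun t₃ ht₃ => ?_
      obtain ⟨u', hu', l, h6, h7⟩ := hfmem n y t₃ (hB.memMono _ _ _ _ h5' ht₃)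
      have h8 : m = l := hnum n m l u'
        (hB.mono _ _ _ _ hm ((hu'.trans ht₃).trans ht₂)) h6
      subst h8
      exact ⟨u', hu', h7⟩
  · intro n hn x hx
    rw [hF.imp]
    intro t ht _
    rw [hF.imp]
    intro t₁ ht₁ h5
    rw [hS.relMem _ (dc_hs_cons S hx (dc_hs_cons S hn hv₄hs))] at h5
    have h5' : FMem (Name.opair n x) f t₁ := h5
    refine hB.memDense _ _ _ fun t₂ ht₂ => ?_
    obtain ⟨u, hu, l, h6, h7⟩ := hfmem n x t₂ (hB.memMono _ _ _ _ h5' ht₂)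
    refine ⟨u, hu, ?_⟩
    have h8 : FMem (st l).1.2 a u := hB.memMono _ _ _ _ (hXa l)
      (((hu.trans ht₂).trans ht₁).trans ht)
    exact hB.memCongr _ _ _ _ _ (hB.symm _ _ _ h7) (hB.refl _ _) h8
  · intro n hn s hs x hx y hy
    have hv : ∀ i, S.IsHS ((Fin.cons y (Fin.cons x (Fin.cons s (Fin.cons n (Fin.cons f
        (Fin.cons Name.omega v₂))))) : Fin 8 → Name (P₀ × C)) i) :=
      dc_hs_cons S hy (dc_hs_cons S hx (dc_hs_cons S hs (dc_hs_cons S hn hv₄hs)))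
    rw [hF.imp]
    intro t ht hnt
    rw [hF.imp]
    intro t₁ ht₁ hsucc
    rw [hF.imp]
    intro t₂ ht₂ hnx'
    rw [hF.imp]
    intro t₃ ht₃ hsy
    rw [hS.relMem _ hv] at hnx' hsy ⊢
    have e1 : FMem (Name.opair n x) f t₂ := hnx'
    have e2 : FMem (Name.opair s y) f t₃ := hsy
    change FMem (Name.opair x y) r t₃
    refine hB.memDense _ _ _ fun t₄ ht₄ => ?_
    obtain ⟨u, hu, l, h6, h7⟩ := hfmem n x t₄ (hB.memMono _ _ _ _ e1 (ht₄.trans ht₃))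
    have h8 : FEq s (Name.num (l + 1)) u := by
      have h9 := hF.mono _ _ _ _ hsucc (((hu.trans ht₄).trans ht₃).trans ht₂)
      exact (hS.isSucc _ hv 2 3 l u h6).1 h9
    obtain ⟨u', hu', l', h10, h11⟩ := hfmem s y u (hB.memMono _ _ _ _ e2 (hu.trans ht₄))
    have h12 : l + 1 = l' := hnum s _ _ u' (hB.mono _ _ _ _ h8 hu') h10
    subst h12
    refine ⟨u', hu'.trans hu, ?_⟩
    have hle : u' ≤ (p, d) := (((((hu'.trans hu).trans ht₄).trans ht₃).trans ht₂).trans ht₁).trans ht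
    exact hB.memCongr _ _ _ _ _ (dc_opair_congr hB _ _ _ _ _
      (hB.symm _ _ _ (hB.mono _ _ _ _ h7 hu')) (hB.symm _ _ _ h11)) (hB.refl _ _)
      (hB.memMono _ _ _ _ (hXr l) hle)

end Pool.Agent.Helper46.SP
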