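import Pool.Agent.Helper54.SP.Stmts

set_option autoImplicit false

namespace Pool.Agent.Helper54.SP

theorem f3_grp2 : grp 2 = 0 := rfl
theorem f3_grp3 : grp 3 = 0 := rfl

theorem f3_grp {q : ℕ} (h : 4 ≤ q) : 1 ≤ grp q := by
  unfold grp
  omega

theorem f3_mono {p q : ℕ} (h : grp p < grp q) : p < q := by
  unfold grp at h
  omega

theorem f3_sk (Γ : List Gt) (p : ℕ) : 8 * (grp p - 1) ≤ sk Γ p ∧ sk Γ p ≤ 8 * (grp p - 1) + 7 := by
  unfold sk
  omega

/-- different groups -/
theorem f3_sg0_lt (Γ : List Gt) {q r : ℕ} (hq : 3 ≤ q) (h : grp q < grp r) : sg0 Γ 2 q r = false := by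
  unfold sg0
  rw [if_neg (by omega), if_neg (by omega), if_pos h]
  apply decide_eq_false
  intro h1
  have : yk Γ 2 = 0 := by
    unfold yk
    rw [if_pos (by omega)]
  rw [this] at h1
  omega

/-- the same group -/
theorem f3_sg0_eq (Γ : List Gt) {q r : ℕ} (hq : 4 ≤ q) (h : grp q = grp r)
    (hk : (gat Γ q).k = false) : sg0 Γ 2 q r = decide (sk Γ r < sk Γ q) := by
  unfold sg0
  rw [if_neg (by omega), if_neg (by omega), if_neg (by omega),
    if_pos (by rw [f3_grp2]; have := f3_grp hq; omega)]
  unfold dsg
  rw [hk]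
  simp

theorem f3_lt (Γ : List Gt) {q r : ℕ} (hq : 2 < q) (h : q < r) :
    sg3 Γ 2 q r = sg0 Γ 2 q r ∧ sg3 Γ 2 r q = !sg0 Γ 2 q r := by
  constructor
  · unfold sg3
    rw [if_pos hq, if_pos h]
  · unfold sg3
    rw [if_pos (by omega), if_neg (by omega), if_pos hq]

theorem st_F3 : ST_F3 := by
  intro Γ nw hW q hq hqN hqk
  constructor
  · intro p hp hpN hpk hsk
    rcases lt_trichotomy p q with h | h | h
    · obtain ⟨h1, h2⟩ := f3_lt Γ (q := p) (r := q) (by omega) h
      have h3 : sg0 Γ 2 p q = false := by
        rcases lt_or_ge (grp p) (grp q) with hg | hg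
        · exact f3_sg0_lt Γ (by omega) hg
        · have hg2 : grp p = grp q := by
            unfold grp at hg ⊢
            omega
          rw [f3_sg0_eq Γ hp hg2 hpk]
          apply decide_eq_false
          omega
      rw [h1, h2, h3]
      exact ⟨rfl, rfl⟩
    · rw [h] at hsk
      exact absurd hsk (lt_irrefl _)
    · obtain ⟨h1, h2⟩ := f3_lt Γ (q := q) (r := p) (by omega) h
      have h3 : sg0 Γ 2 q p = true := by
        rcases lt_or_ge (grp q) (grp p) with hg | hg
        · exfalso
          have s1 := (f3_sk Γ p).1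
          have s2 := (f3_sk Γ q).2
          have s3 := f3_grp hq
          omega
        · have hg2 : grp q = grp p := by
            unfold grp at hg ⊢
            omega
          rw [f3_sg0_eq Γ hq hg2 hqk]
          exact decide_eq_true hsk
      rw [h1, h2, h3]
      exact ⟨rfl, rfl⟩
  · intro x hx
    rcases hx with hx | ⟨hx1, hx2, hx3⟩
    · subst hx
      obtain ⟨h1, h2⟩ := f3_lt Γ (q := 3) (r := q) (by omega) (by omega)
      rw [h2, f3_sg0_lt Γ (by omega) (by rw [f3_grp3]; exact f3_grp hq)]
      rfl
    · have hg : grp x < grp q := by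
        by_contra hcon
        push Not at hcon
        have s3 := f3_grp hq
        have hk : (gat Γ q).k = true := by
          rcases lt_or_eq_of_le hcon with h | h
          · apply hW.sorted (grp q - 1) (grp x - 1) (by omega) _ hx3
            unfold grp NN at *
            omega
          · unfold gat at hx3 ⊢
            rw [h]
            exact hx3
        rw [hqk] at hk
        exact Bool.false_ne_true hk
      obtain ⟨h1, h2⟩ := f3_lt Γ (q := x) (r := q) (by omega) (f3_mono hg)
      rw [h2, f3_sg0_lt Γ (by omega) hg]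
      rfl

end Pool.Agent.Helper54.SP
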