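import Pool.Agent.Helper54.SP.StmtsP

set_option autoImplicit false

namespace Pool.Agent.Helper54.SP

open Finset

theorem p2_range {d : ℕ} (p : ℕ → Fin d → ℝ) (B : Finset ℕ) :
    Set.range (fun i : B => p i) = p '' (B : Set ℕ) := by
  ext x
  constructor
  · rintro ⟨i, rfl⟩
    exact ⟨i.1, i.2, rfl⟩
  · rintro ⟨i, hi, rfl⟩
    exact ⟨⟨i, hi⟩, rfl⟩

/-- the dimension of the span of affinely independent points -/
theorem p2_fin {d : ℕ} (p : ℕ → Fin d → ℝ) (B : Finset ℕ) (m : ℕ) (hB : B.card = m + 1)
    (h : AffineIndependent ℝ (fun i : B => p i)) :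
    Module.finrank ℝ (vectorSpan ℝ (p '' (B : Set ℕ))) = m := by
  rw [← p2_range]
  exact h.finrank_vectorSpan (by rw [Fintype.card_coe, hB])

/-- a linear functional constant on d+1 affinely independent points is zero -/
theorem p2_zero {d : ℕ} (p : ℕ → Fin d → ℝ) (B : Finset ℕ) (hB : B.card = d + 1)
    (h : AffineIndependent ℝ (fun i : B => p i)) (m : (Fin d → ℝ) →ₗ[ℝ] ℝ) (k : ℝ)
    (hm : ∀ i ∈ B, m (p i) = k) : ∀ x, m x = 0 := by
  have h1 := p2_fin p B d hB h
  have h2 : vectorSpan ℝ (p '' (B : Set ℕ)) = ⊤ := by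
    apply Submodule.eq_top_of_finrank_eq
    rw [h1]
    simp
  have h3 : vectorSpan ℝ (p '' (B : Set ℕ)) ≤ LinearMap.ker m := by
    rw [vectorSpan_def, Submodule.span_le]
    rintro x ⟨a, ⟨i, hi, rfl⟩, b, ⟨j, hj, rfl⟩, rfl⟩
    show m (p i -ᵥ p j) = 0
    rw [vsub_eq_sub, map_sub, hm i hi, hm j hj, sub_self]
  intro x
  have : x ∈ LinearMap.ker m := h3 (by rw [h2]; exact Submodule.mem_top)
  exact this

theorem st_P2 (hPF : ST_PF) (hPC : ST_PC) (hPI : ST_PI) : ST_P2 := by
  classical
  intro d n p Q hd hdn hU hF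
  obtain ⟨l, c, hle, hQ, hne, hfin⟩ := hF
  have hmem : ∀ i, i < n → p i ∈ hul d n p := fun i hi =>
    subset_convexHull ℝ _ ⟨i, hi, rfl⟩
  have hlp : ∀ i, i < n → l (p i) ≤ c := fun i hi => hle _ (hmem i hi)
  set B : Finset ℕ := (range n).filter (fun i => l (p i) = c) with hB
  have hBm : ∀ i, i ∈ B ↔ i < n ∧ l (p i) = c := by
    intro i; rw [hB, mem_filter, mem_range]
  have hset : {i | i < n ∧ l (p i) = c} = (B : Set ℕ) := by
    ext i
    simp only [Set.mem_setOf_eq, mem_coe, hBm]
  have hQ2 : Q = convexHull ℝ (p '' (B : Set ℕ)) := by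
    rw [hQ, hPC d n p l c hlp, hset]
  have hspan : vectorSpan ℝ Q = vectorSpan ℝ (p '' (B : Set ℕ)) := by
    rw [hQ2, ← direction_affineSpan, affineSpan_convexHull, direction_affineSpan]
  rw [hspan] at hfin
  have hBne : B.Nonempty := by
    rw [Finset.nonempty_iff_ne_empty]
    intro h0
    rw [hQ2, h0] at hne
    simp at hne
  -- cardinality
  have hlow : d ≤ B.card := by
    have hpos : 0 < B.card := Finset.card_pos.mpr hBne
    have h1 := finrank_vectorSpan_image_finset_le ℝ p B (n := B.card - 1) (by omega)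
    rw [Finset.coe_image] at h1
    omega
  have hup : B.card ≤ d := by
    by_contra hlt
    push Not at hlt
    obtain ⟨B', hB'1, hB'2⟩ := Finset.exists_subset_card_eq (s := B) (n := d + 1) (by omega)
    have h1 := hPI d n p hdn hU B' (by omega) (fun i hi => ((hBm i).1 (hB'1 hi)).1)
    have h2 := p2_fin p B' d hB'2 h1
    have h3 : vectorSpan ℝ (p '' (B' : Set ℕ)) ≤ vectorSpan ℝ (p '' (B : Set ℕ)) :=
      vectorSpan_mono ℝ (Set.image_mono (by exact_mod_cast hB'1))
    have h4 := Submodule.finrank_mono h3
    omega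
  have hcard : B.card = d := le_antisymm hup hlow
  set f : List ℕ := B.sort (· ≤ ·) with hf
  have hfm : ∀ i, i ∈ f ↔ i ∈ B := fun i => by rw [hf, Finset.mem_sort]
  have hflen : f.length = d := by rw [hf, Finset.length_sort, hcard]
  have hfnd : f.Nodup := by rw [hf]; exact Finset.sort_nodup _ _
  refine ⟨f, ?_, hflen, ?_, ?_, ?_⟩
  · rw [hf]
    exact (Finset.sortedLT_sort B).pairwise
  · intro i hi
    exact ((hBm i).1 ((hfm i).1 hi)).1
  · -- one-sidedness
    obtain ⟨L, c', hL⟩ := hPF d p f hflen
    have hz : ∀ i ∈ B, L (p i) = c' := by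
      intro i hi
      have h1 := hL i
      have h2 : dt (d + 1) (hom d p) (f ++ [i]) = 0 := by
        obtain ⟨a, ha, hai⟩ := List.mem_iff_getElem.1 ((hfm i).2 hi)
        unfold dt
        apply Matrix.det_zero_of_row_eq (i := (⟨a, by omega⟩ : Fin (d + 1))) (j := Fin.last d)
        · intro h
          have := congrArg Fin.val h
          simp only [Fin.val_last] at this
          omega
        · funext j
          simp only [Matrix.of_apply, Fin.val_last]
          have e1 : (f ++ [i]).getD a 0 = i := by
            rw [List.getD_append _ _ _ _ ha, List.getD_eq_getElem _ _ ha, hai]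
          have e2 : (f ++ [i]).getD d 0 = i := by
            rw [List.getD_append_right _ _ _ _ (by omega), hflen]
            simp
          rw [e1, e2]
      rw [h2] at h1
      linarith
    have hnz : ∀ x, x < n → x ∉ f → L (p x) - c' ≠ 0 := by
      intro x hx hxf
      rw [← hL x]
      apply hU
      · rw [List.length_append, hflen]; rfl
      · rw [List.nodup_append]
        refine ⟨hfnd, List.nodup_singleton _, ?_⟩
        intro a ha b hb hab
        rw [List.mem_singleton] at hb
        rw [hab, hb] at ha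
        exact hxf ha
      · intro i hi
        rw [List.mem_append, List.mem_singleton] at hi
        rcases hi with hi | hi
        · exact ((hBm i).1 ((hfm i).1 hi)).1
        · rw [hi]; exact hx
    have hpos : ∀ x, x < n → x ∉ f → 0 < c - l (p x) := by
      intro x hx hxf
      have h1 := hlp x hx
      have h2 : l (p x) ≠ c := by
        intro h
        exact hxf ((hfm x).2 ((hBm x).2 ⟨hx, h⟩))
      have := lt_of_le_of_ne h1 h2
      linarith
    intro x y hx hy hxf hyf
    rw [hL x, hL y]
    -- proportionality with reference point x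
    have hxB : x ∉ B := fun h => hxf ((hfm x).2 h)
    set m : (Fin d → ℝ) →ₗ[ℝ] ℝ := (L (p x) - c') • (-l) - (c - l (p x)) • L with hm
    have hmk : ∀ i ∈ insert x B, m (p i) = (L (p x) - c') * (-c) - (c - l (p x)) * c' := by
      intro i hi
      have hmi : m (p i) = (L (p x) - c') * (-(l (p i))) - (c - l (p x)) * L (p i) := by
        rw [hm]
        simp only [LinearMap.sub_apply, LinearMap.smul_apply, LinearMap.neg_apply, smul_eq_mul]
      rw [hmi]
      rw [Finset.mem_insert] at hi
      rcases hi with hi | hi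
      · rw [hi]; ring
      · rw [hz i hi, ((hBm i).1 hi).2]
    have hind := hPI d n p hdn hU (insert x B) (by rw [Finset.card_insert_of_notMem hxB]; omega)
      (by
        intro i hi
        rw [Finset.mem_insert] at hi
        rcases hi with hi | hi
        · rw [hi]; exact hx
        · exact ((hBm i).1 hi).1)
    have h0 := p2_zero p (insert x B) (by rw [Finset.card_insert_of_notMem hxB, hcard]) hind m _ hmk
    have hk0 : (L (p x) - c') * (-c) - (c - l (p x)) * c' = 0 := by
      rw [← hmk x (Finset.mem_insert_self _ _)]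
      exact h0 _
    have hmy : m (p y) = (L (p x) - c') * (-(l (p y))) - (c - l (p x)) * L (p y) := by
      rw [hm]
      simp only [LinearMap.sub_apply, LinearMap.smul_apply, LinearMap.neg_apply, smul_eq_mul]
    have hy0 := h0 (p y)
    rw [hmy] at hy0
    -- (L (p x) - c') (c - l (p y)) = (c - l (p x)) (L (p y) - c')
    have hrel : (L (p x) - c') * (c - l (p y)) = (c - l (p x)) * (L (p y) - c') := by linarith
    have hax := hpos x hx hxf
    have hay := hpos y hy hyf
    have hsq : 0 < (L (p x) - c') ^ 2 := by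
      have := hnz x hx hxf
      positivity
    have h1 : (c - l (p x)) * ((L (p x) - c') * (L (p y) - c')) = (L (p x) - c') ^ 2 * (c - l (p y)) := by
      calc (c - l (p x)) * ((L (p x) - c') * (L (p y) - c'))
          = (L (p x) - c') * ((c - l (p x)) * (L (p y) - c')) := by ring
        _ = (L (p x) - c') ^ 2 * (c - l (p y)) := by rw [← hrel]; ring
    have h2 : 0 < (c - l (p x)) * ((L (p x) - c') * (L (p y) - c')) := by
      rw [h1]; positivity
    exact (mul_pos_iff_of_pos_left hax).1 h2
  · rw [hQ2]
    congr 2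
    ext i
    simp only [mem_coe, Set.mem_setOf_eq, hfm]

end Pool.Agent.Helper54.SP
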